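import Mathlib

/-! The `k`-hop colouring numbers and property (P). -/

set_option autoImplicit false

namespace Pool.Agent.H165Z.Hop

/-- The set of vertices `u` that are `k`-hop `l`-reachable from `v` in the order `σ`: there is a
path `x 0 = v, x 1, …, x s = u` with `s ≤ l`, all earlier vertices are larger than `u`, and at most
`k` indices `j ∈ [s]` have `x j` smaller than all of `x 0, …, x (j - 1)`. -/
def GReach {V : Type} (G : SimpleGraph V) (σ : LinearOrder V) (k l : ℕ) (v : V) : Set V :=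
  {u | ∃ (s : ℕ) (x : ℕ → V), s ≤ l ∧ x 0 = v ∧ x s = u ∧
    (∀ i < s, G.Adj (x i) (x (i + 1))) ∧ Set.InjOn x (Set.Iic s) ∧
    (∀ i < s, σ.lt u (x i)) ∧
    {j : ℕ | 1 ≤ j ∧ j ≤ s ∧ ∀ i < j, σ.lt (x j) (x i)}.ncard ≤ k}

/-- `gcol_{k,l}(G)`: minimum over linear orders of the largest size of a reachable set. -/
noncomputable def gcol {V : Type} [Fintype V] (G : SimpleGraph V) (k l : ℕ) : ℕ :=
  ⨅ σ : LinearOrder V, ⨆ v : V, (GReach G σ k l v).ncard

/-- A class of finite simple graphs. -/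
def GraphClass : Type 1 := ∀ (V : Type) [Fintype V], SimpleGraph V → Prop

/-- The numbers `gcol_{k(l),l}` are bounded on the class by one polynomial in `l`. -/
def PolyBounded (C : GraphClass) (k : ℕ → ℕ) : Prop :=
  ∃ q : Polynomial ℝ, ∀ (V : Type) [Fintype V] (G : SimpleGraph V), C V G →
    ∀ l : ℕ, 1 ≤ l → (gcol G (k l) l : ℝ) ≤ q.eval (l : ℝ)

/-- Property (P): polynomial strong colouring numbers `gcol_{1,l}` force polynomial
`gcol_{k(l),l}`. -/
def PropertyP (k : ℕ → ℕ) : Prop :=
  ∀ C : GraphClass, PolyBounded C (fun _ => 1) → PolyBounded C k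

end Pool.Agent.H165Z.Hop
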