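import Pool.Agent.H165Z.Hop.Tree

set_option autoImplicit false

namespace Pool.Agent.H165Z.Hop

variable {m d L : ℕ} [NeZero d] {Γ : Fin m → Fin m → Prop}

theorem olt_of_le {V : Type} (σ : LinearOrder V) {a b : V} (h : σ.le b a) (h' : a ≠ b) :
    σ.lt b a := by
  let _ := σ
  exact lt_of_le_of_ne h h'.symm

theorem src_eq_of_pt {e e' : Edge m d} {c c' : ℕ} (hc : c ≤ L) (hc' : c' ≤ L)
    (h : pt L e c = pt L e' c') : e.1 = e'.1 := by
  rcases pt_cases (L := L) e' c' with ⟨h0, h1⟩ | ⟨h0, h1⟩ | ⟨h0, h1⟩ <;> rw [h1] at h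
  · rcases pt_eq_inl h with h2 | h2
    · exact h2.2
    · omega
  · rw [(pt_eq_inr h).1]
  · omega

theorem alpha (hΓ : ∀ a b, Γ a b → a < b) (σ : LinearOrder (Vx m d L)) {l : ℕ} (hl : L + 1 ≤ l)
    (hsmall : ∀ v, (GReach (treeGraph d L Γ) σ 1 l v).ncard < m) (hd : m ≤ d)
    (w : Node m d) (n' : Fin m) (h : Γ w.1 n') :
    ∃ p : Fin d, ∀ c, 1 ≤ c → c ≤ L → σ.lt (Sum.inl w) (pt L (w, n', p) c) := by
  by_contra hcon
  push Not at hcon
  have := rays_card (G := treeGraph d L Γ) σ (show L ≤ l by omega) (Sum.inl w)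
    (Finset.univ : Finset (Fin d)) (fun p => pt L (w, n', p)) (fun p _ => pt_zero _)
    (fun p _ i hi => adj_pt hΓ (e := (w, n', p)) h hi.le)
    (fun p _ a ha b hb hab => pt_inj (e := (w, n', p)) (hΓ _ _ h)
      (by simp only [Set.mem_Iic] at ha; omega) (by simp only [Set.mem_Iic] at hb; omega) hab)
    (fun p _ => by
      obtain ⟨c, h1, h2, h3⟩ := hcon p
      refine ⟨c, h2, olt_of_le σ h3 ?_⟩
      rw [pt_mid _ h1 h2]; simp)
    (fun p _ p' _ i i' h1 h2 h3 h4 hh => by
      rw [pt_mid _ h3 h4] at hh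
      have := (pt_eq_inr hh).1
      simpa using this)
  have h2 := hsmall (Sum.inl w)
  simp only [Finset.card_univ, Fintype.card_fin] at this
  omega

theorem trunc_update {n n' : Fin m} (h : n < n') (f : Fin m → Fin d) (c : Fin d) :
    trunc n' (Function.update f n c) = trunc n' f := by
  funext x
  unfold trunc
  by_cases hx : n' ≤ x
  · have : x ≠ n := (h.trans_le hx).ne'
    simp [hx, this]
  · simp [hx]

theorem beta (hΓ : ∀ a b, Γ a b → a < b) (σ : LinearOrder (Vx m d L)) {l : ℕ} (hl : L + 1 ≤ l)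
    (hsmall : ∀ v, (GReach (treeGraph d L Γ) σ 1 l v).ncard < m)
    (f : Fin m → Fin d) (n n' : Fin m) (h : Γ n n') (P : Finset (Fin d))
    (hP : ∀ c ∈ P, σ.lt (Sum.inl (n, trunc n (Function.update f n c))) (Sum.inl (n', trunc n' f))) :
    P.card < m := by
  have hlt := hΓ _ _ h
  let e : Fin d → Edge m d := fun c => ((n, trunc n (Function.update f n c)), n', 0)
  have := rays_card (G := treeGraph d L Γ) σ hl (Sum.inl (n', trunc n' f)) P
    (fun c i => pt L (e c) (L + 1 - i))
    (fun c _ => by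
      simp only [Nat.sub_zero]
      rw [pt_last _ le_rfl]
      simp only [anc, e]
      rw [trunc_trunc hlt.le, trunc_update hlt])
    (fun c _ i hi => by
      have := (adj_pt hΓ (e := e c) (L := L) h (c := L + 1 - (i + 1)) (by omega)).symm
      rwa [show L + 1 - (i + 1) + 1 = L + 1 - i by omega] at this)
    (fun c _ a ha b hb hab => by
      have := pt_inj (e := e c) hlt (by omega) (by omega) hab
      simp only [Set.mem_Iic] at ha hb
      omega)
    (fun c hc => ⟨L + 1, le_rfl, by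
      simp only [Nat.sub_self]
      rw [pt_zero]
      exact hP c hc⟩)
    (fun c _ c' _ i i' h1 h2 h3 h4 hh => by
      have := src_eq_of_pt (by omega) (by omega) hh
      have := congrFun (congrArg Prod.snd this) n
      simpa [e, trunc] using this)
  exact this.trans_lt (hsmall _)

theorem branch (hΓ : ∀ a b, Γ a b → a < b) (σ : LinearOrder (Vx m d L)) {l : ℕ} (hl : L + 1 ≤ l)
    (hsmall : ∀ v, (GReach (treeGraph d L Γ) σ 1 l v).ncard < m) (hd : m * m < d) :
    ∃ f : Fin m → Fin d, ∀ n n', Γ n n' →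
      σ.lt (Sum.inl (n', trunc n' f)) (Sum.inl (n, trunc n f)) := by
  classical
  have key1 : ∀ j ≤ m, ∃ f : Fin m → Fin d, ∀ n n' : Fin m, m - j ≤ n → Γ n n' →
      σ.lt (Sum.inl (n', trunc n' f)) (Sum.inl (n, trunc n f)) := by
    intro j
    induction j with
    | zero => intro _; exact ⟨fun _ => 0, fun n n' h => absurd n.2 (by omega)⟩
    | succ j ih =>
      intro hj
      obtain ⟨f, hf⟩ := ih (by omega)
      let n₀ : Fin m := ⟨m - (j + 1), by omega⟩
      have hc : ∃ c : Fin d, ∀ n', Γ n₀ n' → σ.lt (Sum.inl (n', trunc n' f))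
          (Sum.inl (n₀, trunc n₀ (Function.update f n₀ c))) := by
        by_contra hcon
        push Not at hcon
        choose g hg1 hg2 using hcon
        obtain ⟨n', -, hn'⟩ := Finset.exists_lt_card_fiber_of_mul_lt_card_of_maps_to
          (s := (Finset.univ : Finset (Fin d))) (t := (Finset.univ : Finset (Fin m))) (f := g)
          (n := m) (fun _ _ => Finset.mem_univ _) (by simpa using hd)
        obtain ⟨c₀, hc₀⟩ : (Finset.univ.filter fun c => g c = n').Nonempty :=
          Finset.card_pos.1 (by omega)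
        have hΓ' : Γ n₀ n' := by
          rw [← (Finset.mem_filter.1 hc₀).2]; exact hg1 c₀
        have := beta hΓ σ hl hsmall f n₀ n' hΓ' (Finset.univ.filter fun c => g c = n')
          (fun c hc => by
            have h1 := hg2 c
            rw [(Finset.mem_filter.1 hc).2] at h1
            refine olt_of_le σ h1 fun h => ?_
            have := congrArg Prod.fst (Sum.inl.inj h)
            exact (hΓ _ _ hΓ').ne' this)
        omega
      obtain ⟨c, hc⟩ := hc
      refine ⟨Function.update f n₀ c, fun n n' hn h => ?_⟩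
      by_cases hn0 : n = n₀
      · subst hn0
        rw [trunc_update (hΓ _ _ h)]
        exact hc n' h
      · have h1 : n₀ < n := lt_of_le_of_ne hn (Ne.symm hn0)
        rw [trunc_update h1, trunc_update (h1.trans (hΓ _ _ h))]
        refine hf n n' ?_ h
        have : m - (j + 1) < n := h1
        omega
  obtain ⟨f, hf⟩ := key1 m le_rfl
  exact ⟨f, fun n n' h => hf n n' (by omega) h⟩

theorem divmod_succ (M i : ℕ) (hM : 0 < M) :
    ((i + 1) / M = i / M ∧ (i + 1) % M = i % M + 1) ∨
    ((i + 1) / M = i / M + 1 ∧ (i + 1) % M = 0 ∧ i % M + 1 = M) := by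
  have h1 := Nat.div_add_mod i M
  have h2 := Nat.mod_lt i hM
  by_cases h : i % M + 1 < M
  · left
    exact (Nat.div_mod_unique hM).2 ⟨by omega, h⟩
  · right
    have := (Nat.div_mod_unique (a := i + 1) (d := i / M + 1) (c := 0) hM).2
      ⟨by rw [mul_add]; omega, hM⟩
    exact ⟨this.1, this.2, by omega⟩

theorem chain_reach (hΓ : ∀ a b, Γ a b → a < b) (σ : LinearOrder (Vx m d L)) {l K : ℕ}
    (hl : K * (L + 1) ≤ l) (f : Fin m → Fin d)
    (hf : ∀ n n', Γ n n' → σ.lt (Sum.inl (n', trunc n' f)) (Sum.inl (n, trunc n f)))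
    (hα : ∀ (w : Node m d) (n' : Fin m), Γ w.1 n' →
      ∃ p : Fin d, ∀ c, 1 ≤ c → c ≤ L → σ.lt (Sum.inl w) (pt L (w, n', p) c))
    (s : ℕ) (hs : s ≤ K) (y : ℕ → Fin m) (hy : ∀ i < s, Γ (y i) (y (i + 1))) :
    Sum.inl (y s, trunc (y s) f) ∈
      GReach (treeGraph d L Γ) σ K l (Sum.inl (y 0, trunc (y 0) f)) := by
  classical
  let nd : ℕ → Node m d := fun i => (y i, trunc (y i) f)
  have hp : ∀ i, ∃ p : Fin d, i < s →
      ∀ c, 1 ≤ c → c ≤ L → σ.lt (Sum.inl (nd i)) (pt L (nd i, y (i + 1), p) c) := by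
    intro i
    by_cases hi : i < s
    · obtain ⟨p, hp⟩ := hα (nd i) (y (i + 1)) (hy i hi)
      exact ⟨p, fun _ => hp⟩
    · exact ⟨0, fun h => absurd h hi⟩
  choose p hp using hp
  let e : ℕ → Edge m d := fun i => (nd i, y (i + 1), p i)
  have hM : 0 < L + 1 := Nat.succ_pos _
  have hlast : ∀ i < s, pt L (e i) (L + 1) = pt L (e (i + 1)) 0 := by
    intro i hi
    rw [pt_last _ le_rfl, pt_zero]
    simp only [e, nd, anc]
    rw [trunc_trunc (hΓ _ _ (hy i hi)).le]
  have hymono : ∀ a b, a < b → b ≤ s → y a < y b := by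
    intro a b hab
    induction b, hab using Nat.le_induction with
    | base => intro h; exact hΓ _ _ (hy a h)
    | succ b _ ih => intro h; exact (ih (by omega)).trans (hΓ _ _ (hy b h))
  have hndmono : ∀ a b, a < b → b ≤ s → σ.lt (Sum.inl (nd b)) (Sum.inl (nd a)) := by
    intro a b hab
    induction b, hab using Nat.le_induction with
    | base => intro h; exact hf _ _ (hy a h)
    | succ b _ ih => intro h; exact olt_trans σ (hf _ _ (hy b h)) (ih (by omega))
  have hdiv : ∀ i < s * (L + 1), i / (L + 1) < s := fun i hi => (Nat.div_lt_iff_lt_mul hM).2 hi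
  have hdiv' : ∀ i ≤ s * (L + 1), i / (L + 1) ≤ s := fun i hi =>
    Nat.div_le_of_le_mul (by rwa [mul_comm])
  have hmod : ∀ i, i % (L + 1) ≤ L := fun i => Nat.lt_succ_iff.1 (Nat.mod_lt i hM)
  have hX : ∀ a, pt L (e (a * (L + 1) / (L + 1))) (a * (L + 1) % (L + 1)) = Sum.inl (nd a) := by
    intro a
    rw [Nat.mul_div_cancel _ hM, Nat.mul_mod_left, pt_zero]
  refine ⟨s * (L + 1), fun i => pt L (e (i / (L + 1))) (i % (L + 1)),
    (Nat.mul_le_mul_right _ hs).trans hl, by simpa using hX 0, hX s, ?_, ?_, ?_, ?_⟩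
  · intro i hi
    have h1 := adj_pt hΓ (L := L) (e := e (i / (L + 1))) (hy _ (hdiv i hi)) (hmod i)
    rcases divmod_succ (L + 1) i hM with ⟨h2, h3⟩ | ⟨h2, h3, h4⟩
    · simp only [h2, h3]; exact h1
    · simp only [h2, h3]
      rw [h4, hlast _ (hdiv i hi)] at h1
      exact h1
  · intro a ha b hb hab
    simp only [Set.mem_Iic] at ha hb
    have h1 := congrArg Prod.fst (src_eq_of_pt (hmod a) (hmod b) hab)
    have h2 : a / (L + 1) = b / (L + 1) := by
      rcases lt_trichotomy (a / (L + 1)) (b / (L + 1)) with h | h | h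
      · exact absurd h1 (hymono _ _ h (hdiv' b hb)).ne
      · exact h
      · exact absurd h1 (hymono _ _ h (hdiv' a ha)).ne'
    have h3 : a % (L + 1) = b % (L + 1) := by
      simp only [h2] at hab
      rcases pt_cases (L := L) (e (b / (L + 1))) (b % (L + 1)) with ⟨h0, k1⟩ | ⟨h0, k1⟩ | ⟨h0, k1⟩
      · rw [k1] at hab
        rcases pt_eq_inl hab with k2 | k2
        · omega
        · have := hmod a; omega
      · rw [k1] at hab
        have := (pt_eq_inr hab).2
        simp only at this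
        omega
      · have := hmod b; omega
    rw [← Nat.div_add_mod a (L + 1), ← Nat.div_add_mod b (L + 1), h2, h3]
  · intro i hi
    have h1 := hndmono _ _ (hdiv i hi) le_rfl
    by_cases h0 : i % (L + 1) = 0
    · simp only [h0, pt_zero]; exact h1
    · exact olt_trans σ h1 (hp _ (hdiv i hi) _ (by omega) (hmod i))
  · refine (Set.ncard_le_ncard (t := ↑((Finset.Icc 1 s).image (· * (L + 1)))) ?_
      (Finset.finite_toSet _)).trans ?_
    · rintro j ⟨h1, h2, h3⟩
      have hdm := Nat.div_add_mod j (L + 1)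
      by_cases h0 : j % (L + 1) = 0
      · simp only [Finset.coe_image, Finset.coe_Icc, Set.mem_image, Set.mem_Icc]
        refine ⟨j / (L + 1), ⟨?_, hdiv' j h2⟩, by rw [mul_comm]; omega⟩
        rcases Nat.eq_zero_or_pos (j / (L + 1)) with h | h
        · rw [h] at hdm; omega
        · exact h
      · exfalso
        have hj : j < s * (L + 1) := by
          rcases h2.lt_or_eq with h | h
          · exact h
          · rw [h, Nat.mul_mod_left] at h0; exact absurd rfl h0
        have h4 := h3 (j / (L + 1) * (L + 1)) (by rw [mul_comm]; omega)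
        simp only [hX] at h4
        have h5 := hp _ (hdiv j hj) _ (by omega) (hmod j)
        exact olt_irrefl σ _ (olt_trans σ h4 h5)
    · rw [Set.ncard_coe_finset]
      refine Finset.card_image_le.trans ?_
      simpa using hs

theorem gcol_treeGraph (hΓ : ∀ a b, Γ a b → a < b) {l K : ℕ} (hK : 1 ≤ K)
    (hl : K * (L + 1) ≤ l) (hd : m * m < d) (z : Fin m)
    (hR : ∀ n : Fin m, ∃ (s : ℕ) (y : ℕ → Fin m), s ≤ K ∧ y 0 = z ∧ y s = n ∧
      ∀ i < s, Γ (y i) (y (i + 1))) :
    m ≤ gcol (treeGraph d L Γ) K l := by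
  obtain ⟨σ, hσ⟩ := exists_order (treeGraph d L Γ) K l
  by_contra hcon
  have hl' : L + 1 ≤ l := le_trans (Nat.le_mul_of_pos_left _ hK) hl
  have hsmall : ∀ v, (GReach (treeGraph d L Γ) σ 1 l v).ncard < m := fun v =>
    lt_of_le_of_lt ((Set.ncard_le_ncard (GReach_mono σ hK le_rfl v) (Set.toFinite _)).trans (hσ v))
      (not_le.1 hcon)
  obtain ⟨f, hf⟩ := branch hΓ σ hl' hsmall hd
  have hmd : m ≤ d := le_trans (Nat.le_mul_self m) hd.le
  have h1 := Set.ncard_le_ncard_of_injOn (s := (Set.univ : Set (Fin m)))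
    (t := GReach (treeGraph d L Γ) σ K l (Sum.inl (z, trunc z f)))
    (fun n => Sum.inl (n, trunc n f))
    (fun n _ => by
      obtain ⟨s, y, h1, h2, h3, h4⟩ := hR n
      have := chain_reach hΓ σ hl f hf (alpha hΓ σ hl' hsmall hmd) s h1 y h4
      rwa [h2, h3] at this)
    (fun a _ b _ h => congrArg Prod.fst (Sum.inl.inj h))
  have h2 := hσ (Sum.inl (z, trunc z f))
  simp only [Set.ncard_univ, Nat.card_eq_fintype_card, Fintype.card_fin] at h1
  omega

end Pool.Agent.H165Z.Hop
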