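import Pool.Agent.H165Z.Hop.Lower

set_option autoImplicit false

namespace Pool.Agent.H165Z.Hop

/-- digit pattern: set digit `i` of a number whose digits `0, …, i` vanish -/
def Pat (K t : ℕ) (n n' : ℕ) : Prop :=
  ∃ i < K, ∃ a, 1 ≤ a ∧ a < t ∧ t ^ (i + 1) ∣ n ∧ n' = n + a * t ^ i

theorem Pat.lt {K t n n' : ℕ} (h : Pat K t n n') : n < n' := by
  obtain ⟨i, -, a, h1, h2, -, rfl⟩ := h
  have : 0 < a * t ^ i := Nat.mul_pos h1 (Nat.pow_pos (by omega))
  omega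

theorem pat_width (K t m : ℕ) (b : Fin m) :
    {n' : Fin m | b < n' ∧ ∃ n ≤ b, Pat K t n n'}.ncard ≤ K * t := by
  classical
  have h := Set.ncard_le_ncard_of_injOn
    (s := {n' : Fin m | b < n' ∧ ∃ n ≤ b, Pat K t n n'})
    (t := ↑((Finset.range K ×ˢ Finset.range t).image
      fun z => (b : ℕ) / t ^ (z.1 + 1) * t ^ (z.1 + 1) + z.2 * t ^ z.1))
    (fun n => (n : ℕ)) ?_ (fun a _ c _ h => Fin.ext h)
  · rw [Set.ncard_coe_finset] at h
    refine h.trans (Finset.card_image_le.trans ?_)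
    simp
  · rintro n' ⟨h1, n, h2, i, hi, a, ha1, ha2, ⟨c, hc⟩, h3⟩
    simp only [Finset.coe_image, Set.mem_image, Finset.mem_coe, Finset.mem_product,
      Finset.mem_range]
    refine ⟨(i, a), ⟨hi, ha2⟩, ?_⟩
    have hpos : 0 < t ^ i := Nat.pow_pos (by omega)
    have h4 : a * t ^ i < t ^ (i + 1) := by
      rw [pow_succ']; exact Nat.mul_lt_mul_of_pos_right ha2 hpos
    have h1' : (b : ℕ) < n' := h1
    have h2' : (n : ℕ) ≤ b := h2
    have : (b : ℕ) / t ^ (i + 1) = c := by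
      apply Nat.div_eq_of_lt_le
      · rw [mul_comm]; omega
      · rw [add_mul, mul_comm c]; omega
    simp only
    rw [this, h3, hc, mul_comm c]

theorem pat_chain (K t : ℕ) : ∀ j ≤ K, ∀ n r : ℕ, t ^ j ∣ n → r < t ^ j →
    ∃ (s : ℕ) (y : ℕ → ℕ), s ≤ j ∧ y 0 = n ∧ y s = n + r ∧ (∀ i ≤ s, y i ≤ n + r) ∧
      ∀ i < s, Pat K t (y i) (y (i + 1)) := by
  intro j
  induction j with
  | zero =>
    intro _ n r _ hr
    have : r = 0 := by simpa using hr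
    subst this
    exact ⟨0, fun _ => n, le_rfl, rfl, rfl, fun _ _ => le_rfl, fun _ h => absurd h (by omega)⟩
  | succ j ih =>
    intro hj n r hn hr
    have ht : 0 < t := by
      rcases Nat.eq_zero_or_pos t with rfl | h
      · simp at hr
      · exact h
    have hpos : 0 < t ^ j := Nat.pow_pos ht
    have hn' : t ^ j ∣ n := (pow_dvd_pow t (Nat.le_succ j)).trans hn
    by_cases h0 : r < t ^ j
    · obtain ⟨s, y, h1, h2⟩ := ih (by omega) n r hn' h0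
      exact ⟨s, y, by omega, h2⟩
    · have ha1 : 1 ≤ r / t ^ j := (Nat.one_le_div_iff hpos).2 (by omega)
      have ha2 : r / t ^ j < t := by
        rw [Nat.div_lt_iff_lt_mul hpos, ← pow_succ']; exact hr
      obtain ⟨s, y, h1, h2, h3, h4, h5⟩ := ih (by omega) (n + r / t ^ j * t ^ j) (r % t ^ j)
        (dvd_add hn' (Dvd.intro_left _ rfl)) (Nat.mod_lt _ hpos)
      have he : n + r / t ^ j * t ^ j + r % t ^ j = n + r := by
        have := Nat.div_add_mod r (t ^ j)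
        rw [mul_comm] at this
        omega
      rw [he] at h3 h4
      refine ⟨s + 1, fun i => Nat.casesOn i n y, by omega, rfl, h3, ?_, ?_⟩
      · rintro (_ | i) hi
        · exact Nat.le_add_right _ _
        · exact h4 i (by omega)
      · rintro (_ | i) hi
        · exact ⟨j, by omega, r / t ^ j, ha1, ha2, hn, h2⟩
        · exact h5 i (by omega)

theorem exists_graph (K t : ℕ) (hK : 1 ≤ K) (ht : 1 ≤ t) :
    ∃ (V : Type) (_ : Fintype V) (G : SimpleGraph V), (∀ l, gcol G 1 l ≤ 2 * l + 1) ∧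
      ∀ l, K * (K * t + 1) ≤ l → t ^ K ≤ gcol G K l := by
  classical
  have hm : 0 < t ^ K := Nat.pow_pos ht
  let Γ : Fin (t ^ K) → Fin (t ^ K) → Prop := fun a b => Pat K t a b
  have hΓ : ∀ a b, Γ a b → a < b := fun a b h => h.lt
  refine ⟨Vx (t ^ K) (t ^ K * t ^ K + 1) (K * t), inferInstance, treeGraph _ _ Γ,
    col_treeGraph hΓ (pat_width K t _), fun l hl =>
      gcol_treeGraph hΓ hK hl (Nat.lt_succ_self _) ⟨0, hm⟩ fun n => ?_⟩
  obtain ⟨s, y, h1, h2, h3, h4, h5⟩ := pat_chain K t K le_rfl 0 n (dvd_zero _) n.2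
  rw [zero_add] at h3 h4
  refine ⟨s, fun i => ⟨min (y i) n, (min_le_right _ _).trans_lt n.2⟩, h1, ?_, ?_, fun i hi => ?_⟩
  · apply Fin.ext; simp [h2]
  · apply Fin.ext; simp [h3]
  · show Pat K t (min (y i) n) (min (y (i + 1)) n)
    rw [min_eq_left (h4 i hi.le), min_eq_left (h4 (i + 1) hi)]
    exact h5 i hi

theorem poly_bound (q : Polynomial ℝ) : ∃ C : ℝ, 0 ≤ C ∧ ∀ x : ℝ, 1 ≤ x →
    q.eval x ≤ C * x ^ q.natDegree := by
  refine ⟨∑ i ∈ Finset.range (q.natDegree + 1), |q.coeff i|,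
    Finset.sum_nonneg fun _ _ => abs_nonneg _, fun x hx => ?_⟩
  rw [Polynomial.eval_eq_sum_range, Finset.sum_mul]
  refine Finset.sum_le_sum fun i hi => ?_
  have h1 : x ^ i ≤ x ^ q.natDegree :=
    pow_le_pow_right₀ hx (Nat.lt_succ_iff.1 (Finset.mem_range.1 hi))
  calc q.coeff i * x ^ i ≤ |q.coeff i| * x ^ i := by gcongr; exact le_abs_self _
    _ ≤ _ := by gcongr

theorem bounded_of_propertyP (k : ℕ → ℕ) (hk : ∀ l, 1 ≤ l → k l ≤ l) (h : PropertyP k) :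
    ∃ K, ∀ l, 1 ≤ l → k l ≤ K := by
  by_contra hcon
  push Not at hcon
  obtain ⟨q, hq⟩ := h (fun V _ G => ∀ l, gcol G 1 l ≤ 2 * l + 1)
    ⟨Polynomial.C 2 * Polynomial.X + 1, fun V _ G hG l _ => by
      have := hG l
      simp only [Polynomial.eval_add, Polynomial.eval_mul, Polynomial.eval_C, Polynomial.eval_X,
        Polynomial.eval_one]
      exact_mod_cast this⟩
  obtain ⟨C, hC0, hC⟩ := poly_bound q
  set D := q.natDegree with hD
  obtain ⟨T, hT⟩ := exists_nat_gt (C * (4 * ((D + 1 : ℕ) : ℝ) ^ 2) ^ D)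
  obtain ⟨l, hl1, hl2⟩ := hcon (2 * (D + 1) ^ 2 * (T + 1))
  have hl3 := hk l hl1
  have hpos : 0 < 2 * (D + 1) ^ 2 := by positivity
  obtain ⟨t, ht⟩ : ∃ t, t = l / (2 * (D + 1) ^ 2) := ⟨_, rfl⟩
  have ht1 : T + 1 ≤ t := by
    rw [ht, Nat.le_div_iff_mul_le hpos, mul_comm]; omega
  have ht2 : 2 * (D + 1) ^ 2 * t ≤ l := by rw [ht]; exact Nat.mul_div_le _ _
  have ht3 : l < 2 * (D + 1) ^ 2 * (t + 1) := by rw [ht]; exact Nat.lt_mul_div_succ _ hpos
  obtain ⟨V, _, G, hG1, hG2⟩ := exists_graph (D + 1) t (by omega) (by omega)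
  have h1 : t ^ (D + 1) ≤ gcol G (D + 1) l := hG2 l (by nlinarith)
  have h2 : gcol G (D + 1) l ≤ gcol G (k l) l := gcol_mono G (by nlinarith) le_rfl
  have h3 := hq V G hG1 l hl1
  have h4 := hC l (by exact_mod_cast hl1)
  have h5 : (l : ℝ) ≤ 4 * ((D + 1 : ℕ) : ℝ) ^ 2 * t := by
    have : l ≤ 4 * (D + 1) ^ 2 * t := by nlinarith
    exact_mod_cast this
  have h6 : ((t : ℝ)) ^ (D + 1) ≤ C * (4 * ((D + 1 : ℕ) : ℝ) ^ 2 * t) ^ D := by
    calc ((t : ℝ)) ^ (D + 1) = ((t ^ (D + 1) : ℕ) : ℝ) := by push_cast; rfl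
      _ ≤ (gcol G (k l) l : ℝ) := by exact_mod_cast h1.trans h2
      _ ≤ C * (l : ℝ) ^ D := h3.trans h4
      _ ≤ _ := by gcongr
  have htpos : (0 : ℝ) < (t : ℝ) ^ D := by
    have : (0 : ℝ) < t := by exact_mod_cast (show 0 < t by omega)
    positivity
  rw [mul_pow, ← mul_assoc, pow_succ'] at h6
  have h7 := le_of_mul_le_mul_right h6 htpos
  have h8 : (T : ℝ) + 1 ≤ t := by exact_mod_cast ht1
  linarith

theorem main (k : ℕ → ℕ) (hk : ∀ l, 1 ≤ l → 1 ≤ k l ∧ k l ≤ l) :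
    PropertyP k ↔ ∃ K, ∀ l, 1 ≤ l → k l ≤ K :=
  ⟨bounded_of_propertyP k fun l hl => (hk l hl).2, fun ⟨K, hK⟩ => propertyP_of_bounded k K hK⟩

end Pool.Agent.H165Z.Hop
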