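import Pool.Agent.H165Z.Hop.Upper

set_option autoImplicit false

namespace Pool.Agent.H165Z.Hop

theorem ole_of_lt {V : Type} (σ : LinearOrder V) {a b : V} (h : σ.lt a b) : σ.le a b := by
  let _ := σ
  exact le_of_lt h

theorem olt_irrefl {V : Type} (σ : LinearOrder V) (a : V) : ¬ σ.lt a a := by
  let _ := σ
  exact lt_irrefl a

theorem olt_trans {V : Type} (σ : LinearOrder V) {a b c : V} (h : σ.lt a b) (h' : σ.lt b c) :
    σ.lt a c := by
  let _ := σ
  exact lt_trans h h'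

theorem olt_of_not {V : Type} (σ : LinearOrder V) {a b : V} (h : ¬ σ.lt a b) (h' : a ≠ b) :
    σ.lt b a := by
  let _ := σ
  exact lt_of_le_of_ne (not_lt.1 h) h'.symm

theorem rays_card {V ι : Type} [Fintype V] {G : SimpleGraph V} (σ : LinearOrder V) {l s : ℕ}
    (hs : s ≤ l) (v : V) (P : Finset ι) (y : ι → ℕ → V) (h0 : ∀ p ∈ P, y p 0 = v)
    (hadj : ∀ p ∈ P, ∀ i < s, G.Adj (y p i) (y p (i + 1)))
    (hinj : ∀ p ∈ P, Set.InjOn (y p) (Set.Iic s))
    (hlt : ∀ p ∈ P, ∃ i ≤ s, σ.lt (y p i) v)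
    (hdisj : ∀ p ∈ P, ∀ p' ∈ P, ∀ i i', 1 ≤ i → i ≤ s → 1 ≤ i' → i' ≤ s → y p i = y p' i' → p = p') :
    P.card ≤ (GReach G σ 1 l v).ncard := by
  have h : ∀ p : P, ∃ i, 1 ≤ i ∧ i ≤ s ∧ y p i ∈ GReach G σ 1 l v := by
    intro p
    have := ray σ hs (y p) (hadj p p.2) (hinj p p.2) (by rw [h0 p p.2]; exact hlt p p.2)
    rwa [h0 p p.2] at this
  choose i h1 h2 h3 using h
  have := Set.ncard_le_ncard_of_injOn (s := (Set.univ : Set P)) (t := GReach G σ 1 l v)
    (fun p => y p (i p)) (fun p _ => h3 p)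
    (fun p _ p' _ h => Subtype.ext (hdisj p p.2 p' p'.2 _ _ (h1 p) (h2 p) (h1 p') (h2 p') h))
  simpa using this

theorem exists_order_key {V : Type} [Fintype V] (key : V → ℕ) :
    ∃ σ : LinearOrder V, ∀ a b, σ.le a b → key a ≤ key b := by
  classical
  let f : V → Lex (ℕ × Fin (Fintype.card V)) := fun v => toLex (key v, Fintype.equivFin V v)
  have hf : Function.Injective f := by
    intro a b h
    have := congrArg (fun z => (ofLex z).2) h
    exact (Fintype.equivFin V).injective this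
  refine ⟨LinearOrder.lift' f hf, fun a b h => ?_⟩
  have h' : f a ≤ f b := h
  rcases Prod.Lex.toLex_le_toLex.1 h' with h1 | h1
  · exact le_of_lt h1
  · exact le_of_eq h1.1

variable (m d L : ℕ) [NeZero d]

abbrev Node := Fin m × (Fin m → Fin d)
abbrev Edge := Node m d × Fin m × Fin d
abbrev Vx := Node m d ⊕ (Edge m d × Fin L)

variable {m d}

def trunc (n : Fin m) (f : Fin m → Fin d) : Fin m → Fin d := fun x => if n ≤ x then f x else 0

def anc (w : Node m d) (n : Fin m) : Node m d := (n, trunc n w.2)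

theorem trunc_trunc {a b : Fin m} (h : a ≤ b) (f : Fin m → Fin d) :
    trunc b (trunc a f) = trunc b f := by
  funext x
  unfold trunc
  by_cases hx : b ≤ x
  · simp [hx, h.trans hx]
  · simp [hx]

def pt (e : Edge m d) (c : ℕ) : Vx m d L :=
  if c = 0 then Sum.inl e.1
  else if h : c - 1 < L then Sum.inr (e, ⟨c - 1, h⟩) else Sum.inl (anc e.1 e.2.1)

variable {L}

theorem pt_zero (e : Edge m d) : pt L e 0 = Sum.inl e.1 := by simp [pt]

theorem pt_last (e : Edge m d) {c : ℕ} (hc : L + 1 ≤ c) : pt L e c = Sum.inl (anc e.1 e.2.1) := by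
  have h1 : c ≠ 0 := by omega
  have h2 : ¬ c - 1 < L := by omega
  simp [pt, h1, h2]

theorem pt_mid (e : Edge m d) {c : ℕ} (h1 : 1 ≤ c) (h2 : c ≤ L) :
    pt L e c = Sum.inr (e, ⟨c - 1, by omega⟩) := by
  have h3 : c ≠ 0 := by omega
  have h4 : c - 1 < L := by omega
  simp [pt, h3, h4]

theorem pt_cases (e : Edge m d) (c : ℕ) :
    (c = 0 ∧ pt L e c = Sum.inl e.1) ∨
    (∃ h : 1 ≤ c ∧ c ≤ L, pt L e c = Sum.inr (e, ⟨c - 1, by omega⟩)) ∨
    (L + 1 ≤ c ∧ pt L e c = Sum.inl (anc e.1 e.2.1)) := by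
  by_cases h : c = 0
  · left; exact ⟨h, h ▸ pt_zero e⟩
  by_cases h2 : c ≤ L
  · right; left; exact ⟨⟨by omega, h2⟩, pt_mid e (by omega) h2⟩
  · right; right; exact ⟨by omega, pt_last e (by omega)⟩

theorem pt_eq_inr {e e' : Edge m d} {c : ℕ} {q : Fin L} (h : pt L e c = Sum.inr (e', q)) :
    e = e' ∧ c = q + 1 := by
  rcases pt_cases (L := L) e c with ⟨-, h1⟩ | ⟨h0, h1⟩ | ⟨-, h1⟩ <;> rw [h1] at h
  · simp at h
  · simp only [Sum.inr.injEq, Prod.mk.injEq] at h
    refine ⟨h.1, ?_⟩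
    have := congrArg Fin.val h.2
    simp only at this
    omega
  · simp at h

theorem pt_eq_inl {e : Edge m d} {c : ℕ} {w : Node m d} (h : pt L e c = Sum.inl w) :
    (c = 0 ∧ e.1 = w) ∨ (L + 1 ≤ c ∧ anc e.1 e.2.1 = w) := by
  rcases pt_cases (L := L) e c with ⟨h0, h1⟩ | ⟨h0, h1⟩ | ⟨h0, h1⟩ <;> rw [h1] at h
  · left; exact ⟨h0, by simpa using h⟩
  · simp at h
  · right; exact ⟨h0, by simpa using h⟩

theorem pt_inj {e : Edge m d} (he : e.1.1 < e.2.1) {c c' : ℕ} (hc : c ≤ L + 1) (hc' : c' ≤ L + 1)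
    (h : pt L e c = pt L e c') : c = c' := by
  have hne : e.1 ≠ anc e.1 e.2.1 := fun h => absurd (congrArg Prod.fst h) he.ne
  rcases pt_cases (L := L) e c' with ⟨h0, h1⟩ | ⟨h0, h1⟩ | ⟨h0, h1⟩ <;> rw [h1] at h
  · rcases pt_eq_inl h with h2 | h2
    · omega
    · exact absurd h2.2.symm hne
  · have := (pt_eq_inr h).2
    simp only at this
    omega
  · rcases pt_eq_inl h with h2 | h2
    · exact absurd h2.2 hne
    · omega

variable (d L) in
/-- the subdivided tree expansion of the pattern `Γ` -/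
def treeGraph (Γ : Fin m → Fin m → Prop) : SimpleGraph (Vx m d L) :=
  SimpleGraph.fromRel fun a b => ∃ (e : Edge m d) (c : ℕ), Γ e.1.1 e.2.1 ∧ c ≤ L ∧
    a = pt L e c ∧ b = pt L e (c + 1)

variable {Γ : Fin m → Fin m → Prop}

theorem adj_pt (hΓ : ∀ a b, Γ a b → a < b) {e : Edge m d} (he : Γ e.1.1 e.2.1) {c : ℕ}
    (hc : c ≤ L) : (treeGraph d L Γ).Adj (pt L e c) (pt L e (c + 1)) := by
  rw [treeGraph, SimpleGraph.fromRel_adj]
  refine ⟨fun h => ?_, Or.inl ⟨e, c, he, hc, rfl, rfl⟩⟩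
  have := pt_inj (hΓ _ _ he) (by omega) (by omega) h
  omega

theorem adj_cases {a b : Vx m d L} (h : (treeGraph d L Γ).Adj a b) :
    ∃ (e : Edge m d) (c c' : ℕ), Γ e.1.1 e.2.1 ∧ c ≤ L + 1 ∧ c' ≤ L + 1 ∧ c ≤ c' + 1 ∧ c' ≤ c + 1 ∧
      a = pt L e c ∧ b = pt L e c' := by
  rw [treeGraph, SimpleGraph.fromRel_adj] at h
  rcases h.2 with ⟨e, c, h1, h2, h3, h4⟩ | ⟨e, c, h1, h2, h3, h4⟩
  · exact ⟨e, c, c + 1, h1, by omega, by omega, by omega, by omega, h3, h4⟩
  · exact ⟨e, c + 1, c, h1, by omega, by omega, by omega, by omega, h4, h3⟩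

def key : Vx m d L → ℕ
  | Sum.inl w => m - w.1
  | Sum.inr _ => m + 1

omit [NeZero d] in
theorem key_inl_le (w : Node m d) : key (L := L) (Sum.inl w) ≤ m := Nat.sub_le _ _

theorem reach_inr (σ : LinearOrder (Vx m d L)) (hσ : ∀ a b, σ.le a b → key a ≤ key b) (l : ℕ)
    (e : Edge m d) (q : Fin L) :
    (GReach (treeGraph d L Γ) σ 1 l (Sum.inr (e, q))).ncard ≤ 2 * l + 1 := by
  classical
  have hv : pt L e (q + 1) = Sum.inr (e, q) := by
    rw [pt_mid e (by omega) (by omega)]; rfl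
  have hsub : GReach (treeGraph d L Γ) σ 1 l (Sum.inr (e, q)) ⊆
      ↑((Finset.Icc (q + 1 - l) (q + 1 + l)).image (pt L e)) := by
    intro u hu
    simp only [Finset.coe_image, Finset.coe_Icc, Set.mem_image, Set.mem_Icc]
    rcases strong_path σ hu with rfl | ⟨s, x, -, hsl, h0, hs, hadj, -, hle⟩
    · exact ⟨q + 1, by omega, hv⟩
    have key1 : ∀ i ≤ s, ∃ c, x i = pt L e c ∧ c ≤ q + 1 + i ∧ q + 1 ≤ c + i := by
      intro i
      induction i with
      | zero => intro _; exact ⟨q + 1, by rw [h0, hv], by omega, by omega⟩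
      | succ i ih =>
        intro hi
        obtain ⟨c, hc, hc1, hc2⟩ := ih (by omega)
        obtain ⟨e', a, a', -, -, -, h1, h2, h3, h4⟩ := adj_cases (hadj i (by omega))
        have hk := hσ _ _ (hle i (by omega))
        rcases hx : x i with w | ⟨e'', q''⟩
        · rw [hx] at hk
          have := key_inl_le (L := L) w
          simp only [key] at hk this
          omega
        · obtain ⟨k1, k2⟩ := pt_eq_inr (hc.symm.trans hx)
          obtain ⟨k3, k4⟩ := pt_eq_inr (h3.symm.trans hx)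
          exact ⟨a', by rw [h4, k1, k3], by omega, by omega⟩
    obtain ⟨c, hc, hc1, hc2⟩ := key1 s le_rfl
    exact ⟨c, by omega, by rw [← hc, hs]⟩
  refine (Set.ncard_le_ncard hsub (Finset.finite_toSet _)).trans ?_
  rw [Set.ncard_coe_finset]
  refine Finset.card_image_le.trans ?_
  rw [Nat.card_Icc]
  omega

theorem reach_inl_short (σ : LinearOrder (Vx m d L)) (hσ : ∀ a b, σ.le a b → key a ≤ key b)
    {l : ℕ} (hl : l ≤ L) (w : Node m d) :
    GReach (treeGraph d L Γ) σ 1 l (Sum.inl w) ⊆ {Sum.inl w} := by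
  intro u hu
  rcases strong_path σ hu with rfl | ⟨s, x, -, hsl, h0, hs, hadj, hlt, -⟩
  · rfl
  exfalso
  have key1 : ∀ i ≤ s, x i = Sum.inl w ∨ ∃ (e : Edge m d) (q : Fin L), x i = Sum.inr (e, q) ∧
      ((e.1 = w ∧ q + 1 ≤ i) ∨ (anc e.1 e.2.1 = w ∧ L ≤ q + i)) := by
    intro i
    induction i with
    | zero => intro _; exact Or.inl h0
    | succ i ih =>
      intro hi
      obtain ⟨e', a, a', -, k1, k2, h1, h2, h3, h4⟩ := adj_cases (hadj i (by omega))
      have hnear : (e'.1 = w ∧ a ≤ i) ∨ (anc e'.1 e'.2.1 = w ∧ L + 1 ≤ a + i) := by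
        rcases ih (by omega) with h | ⟨e, q, h, h'⟩
        · rcases pt_eq_inl (h3.symm.trans h) with h5 | h5
          · left; exact ⟨h5.2, by omega⟩
          · right; exact ⟨h5.2, by omega⟩
        · obtain ⟨rfl, k4⟩ := pt_eq_inr (h3.symm.trans h)
          rcases h' with h' | h'
          · left; exact ⟨h'.1, by omega⟩
          · right; exact ⟨h'.1, by omega⟩
      rcases pt_cases (L := L) e' a' with ⟨j0, j1⟩ | ⟨j0, j1⟩ | ⟨j0, j1⟩
      · rcases hnear with h | h
        · left; rw [h4, j1, h.1]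
        · omega
      · right
        refine ⟨e', _, h4.trans j1, ?_⟩
        rcases hnear with h | h
        · left; exact ⟨h.1, by simp only; omega⟩
        · right; exact ⟨h.1, by simp only; omega⟩
      · rcases hnear with h | h
        · omega
        · left; rw [h4, j1, h.1]
  have hk := hσ _ _ (ole_of_lt σ hlt)
  rcases key1 s le_rfl with h | ⟨e, q, h, -⟩
  · rw [hs] at h; rw [h] at hlt; exact olt_irrefl σ _ hlt
  · rw [hs] at h; rw [h] at hk
    have := key_inl_le (L := L) w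
    simp only [key] at hk this
    omega

def Desc (w w' : Node m d) : Prop := w' = w ∨ (w'.1 < w.1 ∧ trunc w.1 w'.2 = w.2)

def DescV (w : Node m d) : Vx m d L → Prop
  | Sum.inl w' => Desc w w'
  | Sum.inr z => Desc w z.1.1

theorem desc_of_pt {w : Node m d} {e : Edge m d} (he : e.1.1 < e.2.1) {c : ℕ}
    (h : DescV w (pt L e c)) : Desc w e.1 := by
  rcases pt_cases (L := L) e c with ⟨-, h1⟩ | ⟨h0, h1⟩ | ⟨-, h1⟩ <;> rw [h1] at h
  · exact h
  · exact h
  · right
    rcases h with h | h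
    · rw [← h]; exact ⟨he, rfl⟩
    · refine ⟨he.trans h.1, ?_⟩
      rw [← h.2]
      exact (trunc_trunc h.1.le _).symm

theorem pt_of_desc {w : Node m d} {e : Edge m d} (he : e.1.1 < e.2.1) (c : ℕ)
    (h : Desc w e.1) : DescV w (pt L e c) ∨
      (w.1 < e.2.1 ∧ e.1.1 ≤ w.1 ∧ pt L e c = Sum.inl (anc w e.2.1)) := by
  rcases pt_cases (L := L) e c with ⟨-, h1⟩ | ⟨h0, h1⟩ | ⟨-, h1⟩ <;> rw [h1]
  · exact Or.inl h
  · exact Or.inl h
  · rcases h with h | h
    · right; rw [← h]; exact ⟨he, le_rfl, rfl⟩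
    · rcases lt_trichotomy e.2.1 w.1 with h2 | h2 | h2
      · left; right
        refine ⟨h2, ?_⟩
        rw [← h.2]
        exact trunc_trunc h2.le _
      · left; left
        refine Prod.ext h2 ?_
        rw [← h.2, ← h2]; rfl
      · right
        refine ⟨h2, h.1.le, ?_⟩
        unfold anc
        rw [← h.2, trunc_trunc h2.le]

theorem reach_inl (hΓ : ∀ a b, Γ a b → a < b) (σ : LinearOrder (Vx m d L))
    (hσ : ∀ a b, σ.le a b → key a ≤ key b) (l : ℕ) (w : Node m d) :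
    GReach (treeGraph d L Γ) σ 1 l (Sum.inl w) ⊆ insert (Sum.inl w)
      ((fun n => Sum.inl (anc w n)) '' {n' | w.1 < n' ∧ ∃ n ≤ w.1, Γ n n'}) := by
  intro u hu
  rcases strong_path σ hu with rfl | ⟨s, x, -, hsl, h0, hs, hadj, hlt, hle⟩
  · exact Or.inl rfl
  right
  have key1 : ∀ i ≤ s, DescV w (x i) ∨
      ∃ n', (w.1 < n' ∧ ∃ n ≤ w.1, Γ n n') ∧ Sum.inl (anc w n') = x i := by
    intro i
    induction i with
    | zero => intro _; left; rw [h0]; exact Or.inl rfl
    | succ i ih =>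
      intro hi
      obtain ⟨e, a, a', he, -, -, -, -, h3, h4⟩ := adj_cases (hadj i (by omega))
      rcases ih (by omega) with h | ⟨n', ⟨h1, -⟩, h2⟩
      · rw [h3] at h
        rcases pt_of_desc (L := L) (hΓ _ _ he) a' (desc_of_pt (hΓ _ _ he) h) with h5 | h5
        · left; rwa [h4]
        · right; exact ⟨e.2.1, ⟨h5.1, e.1.1, h5.2.1, he⟩, by rw [h4, h5.2.2]⟩
      · exfalso
        have hk := hσ _ _ (hle i (by omega))
        rw [← h2] at hk
        simp only [key, anc] at hk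
        have := n'.2
        have : (w.1 : ℕ) < n' := h1
        omega
  rcases key1 s le_rfl with h | h
  · exfalso
    have hk := hσ _ _ (ole_of_lt σ hlt)
    rw [hs] at h
    rcases u with w' | z
    · rcases h with h | h
      · rw [h] at hlt; exact olt_irrefl σ _ hlt
      · simp only [key] at hk
        have := w.1.2
        have : (w'.1 : ℕ) < w.1 := h.1
        omega
    · have := key_inl_le (L := L) w
      simp only [key] at hk this
      omega
  · rw [hs] at h; exact h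

theorem col_treeGraph (hΓ : ∀ a b, Γ a b → a < b)
    (hW : ∀ a : Fin m, {n' | a < n' ∧ ∃ n ≤ a, Γ n n'}.ncard ≤ L) (l : ℕ) :
    gcol (treeGraph d L Γ) 1 l ≤ 2 * l + 1 := by
  obtain ⟨σ, hσ⟩ := exists_order_key (key (m := m) (d := d) (L := L))
  refine gcol_le σ _ _ _ ?_
  rintro (w | ⟨e, q⟩)
  · by_cases hl : l ≤ L
    · exact (Set.ncard_le_ncard (reach_inl_short σ hσ hl w) (Set.finite_singleton _)).trans
        (by simp)
    · refine (Set.ncard_le_ncard (reach_inl hΓ σ hσ l w) (Set.toFinite _)).trans ?_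
      refine (Set.ncard_insert_le _ _).trans ?_
      have := (Set.ncard_image_le (f := fun n => (Sum.inl (anc w n) : Vx m d L))
        (s := {n' | w.1 < n' ∧ ∃ n ≤ w.1, Γ n n'}) (Set.toFinite _)).trans (hW w.1)
      omega
  · exact reach_inr σ hσ l e q

end Pool.Agent.H165Z.Hop
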