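import Pool.Agent.H165Z.Hop.Defs

set_option autoImplicit false

namespace Pool.Agent.H165Z.Hop

variable {V : Type} {G : SimpleGraph V}

theorem exists_first (P : ℕ → Prop) (h : ∃ n, P n) : ∃ n, P n ∧ ∀ m < n, ¬ P m := by
  classical
  exact ⟨Nat.find h, Nat.find_spec h, fun m hm => Nat.find_min h hm⟩

theorem finite_newmin (σ : LinearOrder V) (x : ℕ → V) (s : ℕ) :
    {j : ℕ | 1 ≤ j ∧ j ≤ s ∧ ∀ i < j, σ.lt (x j) (x i)}.Finite :=
  (Set.finite_Iic s).subset fun _ h => h.2.1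

theorem GReach_mono (σ : LinearOrder V) {k k' l l' : ℕ} (hk : k ≤ k') (hl : l ≤ l') (v : V) :
    GReach G σ k l v ⊆ GReach G σ k' l' v := by
  rintro u ⟨s, x, h1, h2, h3, h4, h5, h6, h7⟩
  exact ⟨s, x, h1.trans hl, h2, h3, h4, h5, h6, h7.trans hk⟩

theorem self_mem_GReach (σ : LinearOrder V) (k l : ℕ) (v : V) : v ∈ GReach G σ k l v := by
  refine ⟨0, fun _ => v, Nat.zero_le _, rfl, rfl, by simp, ?_, by simp, ?_⟩
  · intro a ha b hb _
    simp only [Set.mem_Iic, Nat.le_zero] at ha hb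
    rw [ha, hb]
  · have : {j : ℕ | 1 ≤ j ∧ j ≤ 0 ∧ ∀ i < j, σ.lt v v} = ∅ := by
      ext j; simp only [Set.mem_ofPred_eq, Set.mem_empty_iff_false, iff_false]; omega
    rw [this]; simp

theorem GReach_zero (σ : LinearOrder V) (l : ℕ) (v : V) : GReach G σ 0 l v ⊆ {v} := by
  rintro u ⟨s, x, -, h2, h3, -, -, h6, h7⟩
  rcases Nat.eq_zero_or_pos s with rfl | hs
  · rw [← h3, h2]; rfl
  · exfalso
    rw [Nat.le_zero, Set.ncard_eq_zero (finite_newmin σ x s)] at h7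
    have : s ∈ {j : ℕ | 1 ≤ j ∧ j ≤ s ∧ ∀ i < j, σ.lt (x j) (x i)} :=
      ⟨hs, le_rfl, fun i hi => h3 ▸ h6 i hi⟩
    rw [h7] at this
    exact this

theorem GReach_succ (σ : LinearOrder V) (k l : ℕ) (v : V) :
    GReach G σ (k + 1) l v ⊆ ⋃ w ∈ GReach G σ 1 l v, GReach G σ k l w := by
  classical
  let _ := σ
  rintro u ⟨s, x, h1, h2, h3, h4, h5, h6, h7⟩
  simp only [Set.mem_iUnion]
  rcases Nat.eq_zero_or_pos s with rfl | hs
  · have : u = v := by rw [← h3, h2]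
    subst this
    exact ⟨u, self_mem_GReach σ _ _ _, self_mem_GReach σ _ _ _⟩
  have hex : ∃ j, 1 ≤ j ∧ j ≤ s ∧ ∀ i < j, σ.lt (x j) (x i) :=
    ⟨s, hs, le_rfl, fun i hi => h3 ▸ h6 i hi⟩
  obtain ⟨j, ⟨hj1, hjs, hj⟩, hjmin⟩ := exists_first _ hex
  refine ⟨x j, ⟨j, x, hjs.trans h1, h2, rfl, fun i hi => h4 i (by omega),
    h5.mono (Set.Iic_subset_Iic.2 hjs), hj, ?_⟩, s - j, fun i => x (j + i), by omega, rfl,
    by rw [← h3]; show x (j + (s - j)) = x s; congr 1; omega, fun i hi => h4 (j + i) (by omega), ?_,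
    fun i hi => h6 (j + i) (by omega), ?_⟩
  · refine (Set.ncard_le_ncard (t := {j}) ?_ (Set.finite_singleton _)).trans (by simp)
    rintro a ⟨ha1, ha2, ha3⟩
    have : j ≤ a := not_lt.1 fun hlt => hjmin a hlt ⟨ha1, ha2.trans hjs, ha3⟩
    exact le_antisymm ha2 this
  · intro a ha b hb hab
    have := h5 (show j + a ∈ Set.Iic s by simp only [Set.mem_Iic] at ha ⊢; omega)
      (show j + b ∈ Set.Iic s by simp only [Set.mem_Iic] at hb ⊢; omega) hab
    omega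
  · have hfin := finite_newmin σ x s
    have hmem : j ∈ {j : ℕ | 1 ≤ j ∧ j ≤ s ∧ ∀ i < j, σ.lt (x j) (x i)} := ⟨hj1, hjs, hj⟩
    have hd := Set.ncard_sdiff_singleton_add_one hmem hfin
    have : {a : ℕ | 1 ≤ a ∧ a ≤ s - j ∧ ∀ i < a, σ.lt (x (j + a)) (x (j + i))}.ncard ≤
        ({j : ℕ | 1 ≤ j ∧ j ≤ s ∧ ∀ i < j, σ.lt (x j) (x i)} \ {j}).ncard := by
      refine Set.ncard_le_ncard_of_injOn (fun a => j + a) ?_ (fun a _ b _ h => by simpa using h)
        (hfin.subset Set.sdiff_subset)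
      rintro a ⟨ha1, ha2, ha3⟩
      refine ⟨⟨by omega, by omega, fun i hi => ?_⟩, by simp; omega⟩
      by_cases hij : i < j
      · exact lt_trans (ha3 0 ha1) (hj i hij)
      · have := ha3 (i - j) (by omega)
        rwa [show j + (i - j) = i by omega] at this
    exact this.trans (by omega)

theorem ncard_GReach_le_pow [Fintype V] (σ : LinearOrder V) (l c : ℕ)
    (hc : ∀ v, (GReach G σ 1 l v).ncard ≤ c) (k : ℕ) : ∀ v, (GReach G σ k l v).ncard ≤ c ^ k := by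
  classical
  induction k with
  | zero =>
    intro v
    exact (Set.ncard_le_ncard (GReach_zero σ l v) (Set.finite_singleton _)).trans (by simp)
  | succ k ih =>
    intro v
    have h1 : GReach G σ (k + 1) l v ⊆
        ↑((GReach G σ 1 l v).toFinset.biUnion fun w => (GReach G σ k l w).toFinset) := by
      intro u hu
      have := GReach_succ σ k l v hu
      simp only [Set.mem_iUnion] at this
      obtain ⟨w, hw, hu⟩ := this
      simp only [Finset.coe_biUnion, Set.coe_toFinset, Set.mem_iUnion]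
      exact ⟨w, hw, hu⟩
    refine (Set.ncard_le_ncard h1 (Finset.finite_toSet _)).trans ?_
    rw [Set.ncard_coe_finset]
    refine (Finset.card_biUnion_le_card_mul _ _ (c ^ k) fun w _ => ?_).trans ?_
    · rw [← Set.ncard_eq_toFinset_card']; exact ih w
    · rw [← Set.ncard_eq_toFinset_card', pow_succ']
      exact Nat.mul_le_mul_right _ (hc v)

theorem le_sup_GReach [Fintype V] (σ : LinearOrder V) (k l : ℕ) (v : V) :
    (GReach G σ k l v).ncard ≤ ⨆ v : V, (GReach G σ k l v).ncard :=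
  le_ciSup (f := fun v => (GReach G σ k l v).ncard) (Set.finite_range _).bddAbove v

theorem gcol_le [Fintype V] (σ : LinearOrder V) (k l c : ℕ)
    (h : ∀ v, (GReach G σ k l v).ncard ≤ c) : gcol G k l ≤ c :=
  (ciInf_le' (fun σ : LinearOrder V => ⨆ v : V, (GReach G σ k l v).ncard) σ).trans (ciSup_le' h)

theorem exists_order [Fintype V] (G : SimpleGraph V) (k l : ℕ) :
    ∃ σ : LinearOrder V, ∀ v, (GReach G σ k l v).ncard ≤ gcol G k l := by
  classical
  have : Nonempty (LinearOrder V) := ⟨linearOrderOfSTO WellOrderingRel⟩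
  obtain ⟨σ, hσ⟩ := ciInf_mem (fun σ : LinearOrder V => ⨆ v : V, (GReach G σ k l v).ncard)
  exact ⟨σ, fun v => (le_sup_GReach σ k l v).trans (le_of_eq hσ)⟩

theorem gcol_mono [Fintype V] (G : SimpleGraph V) {k k' l l' : ℕ} (hk : k ≤ k') (hl : l ≤ l') :
    gcol G k l ≤ gcol G k' l' := by
  obtain ⟨σ, hσ⟩ := exists_order G k' l'
  exact gcol_le σ _ _ _ fun v =>
    (Set.ncard_le_ncard (GReach_mono σ hk hl v) (Set.toFinite _)).trans (hσ v)

theorem gcol_le_pow [Fintype V] (G : SimpleGraph V) (k l : ℕ) : gcol G k l ≤ gcol G 1 l ^ k := by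
  obtain ⟨σ, hσ⟩ := exists_order G 1 l
  exact gcol_le σ _ _ _ (ncard_GReach_le_pow σ l _ hσ k)

theorem propertyP_of_bounded (k : ℕ → ℕ) (K : ℕ) (hK : ∀ l, 1 ≤ l → k l ≤ K) : PropertyP k := by
  rintro C ⟨p, hp⟩
  refine ⟨p ^ K, fun V _ G hG l hl => ?_⟩
  have h1 : gcol G (k l) l ≤ gcol G 1 l ^ K := (gcol_mono G (hK l hl) le_rfl).trans (gcol_le_pow G K l)
  have h2 := hp V G hG l hl
  rw [Polynomial.eval_pow]
  calc (gcol G (k l) l : ℝ) ≤ ((gcol G 1 l ^ K : ℕ) : ℝ) := by exact_mod_cast h1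
    _ = (gcol G 1 l : ℝ) ^ K := by push_cast; rfl
    _ ≤ _ := by gcongr

/-- a strongly reachable vertex: inner vertices of the path are larger than the start -/
theorem strong_path (σ : LinearOrder V) {l : ℕ} {v u : V} (h : u ∈ GReach G σ 1 l v) :
    u = v ∨ ∃ (s : ℕ) (x : ℕ → V), 1 ≤ s ∧ s ≤ l ∧ x 0 = v ∧ x s = u ∧
      (∀ i < s, G.Adj (x i) (x (i + 1))) ∧ σ.lt u v ∧ ∀ i < s, σ.le v (x i) := by
  classical
  let _ := σ
  obtain ⟨s, x, h1, h2, h3, h4, -, h6, h7⟩ := h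
  rcases Nat.eq_zero_or_pos s with rfl | hs
  · left; rw [← h3, h2]
  right
  refine ⟨s, x, hs, h1, h2, h3, h4, h2 ▸ h6 0 hs, ?_⟩
  by_contra hcon
  push Not at hcon
  have hex : ∃ i, i < s ∧ x i < v := by
    obtain ⟨i, hi, hi'⟩ := hcon
    exact ⟨i, hi, hi'⟩
  obtain ⟨j, ⟨hj1, hj2⟩, hjmin⟩ := exists_first _ hex
  have hj0 : 1 ≤ j := by
    rcases Nat.eq_zero_or_pos j with h0 | h0
    · rw [h0, h2] at hj2; exact absurd hj2 (lt_irrefl _)
    · exact h0
  have hm1 : j ∈ {j : ℕ | 1 ≤ j ∧ j ≤ s ∧ ∀ i < j, σ.lt (x j) (x i)} := by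
    refine ⟨hj0, hj1.le, fun i hi => ?_⟩
    have := hjmin i hi
    push Not at this
    exact lt_of_lt_of_le hj2 (this (by omega))
  have hm2 : s ∈ {j : ℕ | 1 ≤ j ∧ j ≤ s ∧ ∀ i < j, σ.lt (x j) (x i)} :=
    ⟨hs, le_rfl, fun i hi => h3 ▸ h6 i hi⟩
  have := (Set.ncard_le_one (finite_newmin σ x s)).1 h7 j hm1 s hm2
  omega

/-- walking along a path until the first smaller vertex -/
theorem ray (σ : LinearOrder V) {l s : ℕ} (hs : s ≤ l) (y : ℕ → V)
    (hadj : ∀ i < s, G.Adj (y i) (y (i + 1))) (hinj : Set.InjOn y (Set.Iic s))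
    (h : ∃ i ≤ s, σ.lt (y i) (y 0)) : ∃ i, 1 ≤ i ∧ i ≤ s ∧ y i ∈ GReach G σ 1 l (y 0) := by
  classical
  let _ := σ
  obtain ⟨j, ⟨hj1, hj2⟩, hjmin⟩ := exists_first _ h
  have hj0 : 1 ≤ j := by
    rcases Nat.eq_zero_or_pos j with h0 | h0
    · rw [h0] at hj2; exact absurd hj2 (lt_irrefl _)
    · exact h0
  have hmin : ∀ i < j, y 0 ≤ y i := by
    intro i hi
    have := hjmin i hi
    push Not at this
    exact this (by omega)
  refine ⟨j, hj0, hj1, j, y, hj1.trans hs, rfl, rfl, fun i hi => hadj i (by omega),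
    hinj.mono (Set.Iic_subset_Iic.2 hj1), fun i hi => lt_of_lt_of_le hj2 (hmin i hi), ?_⟩
  refine (Set.ncard_le_ncard (t := {j}) ?_ (Set.finite_singleton _)).trans (by simp)
  rintro a ⟨ha1, ha2, ha3⟩
  by_contra hne
  have : a < j := lt_of_le_of_ne ha2 hne
  exact absurd (ha3 0 ha1) (not_lt.2 (hmin a this))

end Pool.Agent.H165Z.Hop
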